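import Mathlib
import Pool.Agent.H422.HE.Pow

/-!
Mordell's conjecture for the curves `y ^ m = f(x)` of genus at least two, from helper422's theorems on
hyperelliptic curves and on power classes.
-/

set_option autoImplicit false

open Polynomial IsDedekindDomain NumberField Module

namespace Pool.Agent.H432.G2

open Pool.Agent.H422.HE

/-- exponents at least three, respectively degrees at least three, and the hyperelliptic case -/
theorem sup_large (K : Type) [Field K] [NumberField K] {f : K[X]} (hf : f.Separable) {m : ℕ}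
    (h : (4 ≤ m ∧ 3 ≤ f.natDegree) ∨ (3 ≤ m ∧ 4 ≤ f.natDegree) ∨ (2 ≤ m ∧ 5 ≤ f.natDegree)) :
    {x : K | ∃ y : K, y ^ m = f.eval x}.Finite := by
  classical
  have hm : m ≠ 0 := by omega
  obtain ⟨L, _, _, φ, hφ⟩ := exists_split K f
  have hsp : (f.map φ).Splits := hφ
  have hf0 : f ≠ 0 := hf.ne_zero
  have hf0' : f.map φ ≠ 0 := by rwa [Ne, Polynomial.map_eq_zero]
  have hsep : (f.map φ).Separable := hf.map
  have hnd : (f.map φ).roots.Nodup := nodup_roots hsep
  set R : Finset L := (f.map φ).roots.toFinset with hR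
  have hcard : R.card = f.natDegree := by
    rw [hR, Multiset.toFinset_card_of_nodup hnd, splits_iff_card_roots.mp hsp, natDegree_map]
  set c : L := (f.map φ).leadingCoeff with hc
  have hc0 : c ≠ 0 := leadingCoeff_ne_zero.mpr hf0'
  have hS1 : (⋃ r ∈ R.erase 0, {v : HeightOneSpectrum (𝓞 L) | v.valuation L r ≠ 1}).Finite :=
    (R.erase 0).finite_toSet.biUnion fun r hr => finite_unit _ (Finset.ne_of_mem_erase hr)
  have hS2 : (⋃ r ∈ R, ⋃ s ∈ R.erase r, {v : HeightOneSpectrum (𝓞 L) |
      v.valuation L (r - s) ≠ 1}).Finite :=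
    R.finite_toSet.biUnion fun r _ => (R.erase r).finite_toSet.biUnion fun s hs =>
      finite_unit _ (sub_ne_zero.mpr (Finset.ne_of_mem_erase hs).symm)
  have hfin := pow_fin_proj L (((hS1.union hS2).union (finite_unit c hc0))) (m := m) (R := R)
    (by rw [hcard]; omega)
  refine ((hfin.preimage (f := φ) φ.injective.injOn).union
    (f.roots.toFinset.finite_toSet)).subset ?_
  rintro x ⟨y, hy⟩
  by_cases hx0 : f.eval x = 0
  · right
    rw [Finset.mem_coe, Multiset.mem_toFinset, mem_roots hf0]
    exact hx0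
  left
  intro v hv r hr s hs
  simp only [Set.mem_union, Set.mem_iUnion, Set.mem_ofPred_eq, not_or, not_exists, not_not] at hv
  obtain ⟨⟨hv1, hv2⟩, hv3⟩ := hv
  have h1 : (f.map φ).eval (φ x) = φ (f.eval x) := eval_map_apply ..
  have h2 := hsp.eval_eq_prod_roots (φ x)
  have h3 : ∏ r ∈ R, (φ x - r) = ((f.map φ).roots.map (fun r => φ x - r)).prod := by
    rw [Finset.prod_eq_multiset_prod, Multiset.toFinset_val, hnd.dedup]
  refine factor_pow (v.valuation L) (R := R) (c := c) (w := φ x) hm ?_ ?_ hv3 ?_ hr hs ?_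
  · intro r hr
    by_cases hr0 : r = 0
    · rw [hr0, map_zero]
      exact zero_le'
    · exact (hv1 r (Finset.mem_erase.mpr ⟨hr0, hr⟩)).le
  · intro r hr s hs hrs
    exact hv2 r hr s (Finset.mem_erase.mpr ⟨hrs.symm, hs⟩)
  · refine ⟨v.valuation L (φ y), ?_⟩
    rw [h3, ← h2, h1, ← hy, RingHom.map_pow, map_pow]
  · intro hxs
    apply hx0
    apply φ.injective
    rw [map_zero, ← h1, hxs]
    have := (mem_roots hf0').mp (Multiset.mem_toFinset.mp hs)
    exact this

/-- degree two -/
theorem sup_two (K : Type) [Field K] [NumberField K] {f : K[X]} (hf : f.Separable) {m : ℕ}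
    (hm : 5 ≤ m) (hdeg : f.natDegree = 2) :
    {x : K | ∃ y : K, y ^ m = f.eval x}.Finite := by
  classical
  set a := f.coeff 2 with ha
  set b := f.coeff 1 with hb
  set c := f.coeff 0 with hc
  have hf2 : f = C a * X ^ 2 + C b * X + C c := by
    rw [ha, hb, hc]
    exact eq_quadratic_of_degree_le_two (natDegree_le_iff_degree_le.mp hdeg.le)
  have ha0 : a ≠ 0 := by
    rw [ha, ← hdeg]
    exact leadingCoeff_ne_zero.mpr hf.ne_zero
  have heval : ∀ x, f.eval x = a * x ^ 2 + b * x + c := by
    intro x
    rw [hf2]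
    simp
  -- the discriminant
  have hdisc : b ^ 2 - 4 * a * c ≠ 0 := by
    intro h0
    have hx : f.eval (-b / (2 * a)) = 0 := by
      rw [heval]
      field_simp
      linear_combination (-1 : K) * h0
    have hx' : f.derivative.eval (-b / (2 * a)) = 0 := by
      rw [hf2]
      simp only [derivative_add, derivative_mul, derivative_C, zero_mul, derivative_X_pow,
        derivative_X, eval_add, eval_mul, eval_C, eval_pow, eval_X, zero_add, mul_one, eval_one,
        Nat.cast_ofNat, eval_zero, add_zero, map_ofNat]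
      simp
      field_simp
      ring
    obtain ⟨u, w, huw⟩ := hf
    have := congrArg (Polynomial.eval (-b / (2 * a))) huw
    rw [eval_add, eval_mul, eval_mul, hx, hx', eval_one] at this
    simp at this
  -- the hyperelliptic curve `w ^ 2 = 4 a y ^ m + disc`
  set g : K[X] := C (4 * a) * X ^ m + C (b ^ 2 - 4 * a * c) with hg
  have h4a : (4 * a : K) ≠ 0 := mul_ne_zero (by norm_num) ha0
  have hgdeg : g.natDegree = m := by
    rw [hg, natDegree_add_C, natDegree_C_mul_X_pow _ _ h4a]
  have hgsep : g.Separable := by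
    refine ⟨C (b ^ 2 - 4 * a * c)⁻¹, C (-(b ^ 2 - 4 * a * c)⁻¹ * (m : K)⁻¹) * X, ?_⟩
    have hm0 : (m : K) ≠ 0 := by
      have : m ≠ 0 := by omega
      exact_mod_cast this
    have e1 : derivative g = C (4 * a * m) * X ^ (m - 1) := by
      rw [hg]
      simp only [derivative_add, derivative_C_mul_X_pow, derivative_C, add_zero]
    have e2 : (X : K[X]) * X ^ (m - 1) = X ^ m := by
      rw [← pow_succ']
      congr 1
      omega
    rw [e1]
    have e3 : C (-(b ^ 2 - 4 * a * c)⁻¹ * (m : K)⁻¹) * X * (C (4 * a * m) * X ^ (m - 1)) =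
        C (-(b ^ 2 - 4 * a * c)⁻¹ * (4 * a)) * X ^ m := by
      rw [← e2]
      have : C (-(b ^ 2 - 4 * a * c)⁻¹ * (4 * a)) =
          C (-(b ^ 2 - 4 * a * c)⁻¹ * (m : K)⁻¹) * C (4 * a * m) := by
        rw [← C_mul]
        congr 1
        field_simp
      rw [this]
      ring
    rw [e3, hg, mul_add, ← C_mul, inv_mul_cancel₀ hdisc, C_1, ← mul_assoc, ← C_mul]
    have : C ((b ^ 2 - 4 * a * c)⁻¹ * (4 * a)) * X ^ m + 1 +
        C (-(b ^ 2 - 4 * a * c)⁻¹ * (4 * a)) * X ^ m = (1 : K[X]) := by
      have e4 : -(b ^ 2 - 4 * a * c)⁻¹ * (4 * a) = -((b ^ 2 - 4 * a * c)⁻¹ * (4 * a)) := by ring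
      rw [e4, C_neg]
      ring
    exact this
  have hfin := hyper K hgsep (by rw [hgdeg]; exact hm)
  have hx : ∀ y : K, {x : K | a * x ^ 2 + b * x + (c - y ^ m) = 0}.Finite := by
    intro y
    have hp : (C a * X ^ 2 + C b * X + C (c - y ^ m) : K[X]) ≠ 0 := by
      intro h0
      apply ha0
      have h1 := congrArg (fun p => coeff p 2) h0
      simp only [coeff_add, coeff_C_mul, coeff_X_pow, coeff_X, coeff_C, coeff_zero] at h1
      norm_num at h1
      exact h1
    refine ((C a * X ^ 2 + C b * X + C (c - y ^ m) : K[X]).roots.toFinset.finite_toSet).subset ?_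
    intro x hx
    rw [Finset.mem_coe, Multiset.mem_toFinset, mem_roots hp, IsRoot.def]
    simpa using hx
  refine (hfin.biUnion fun y _ => hx y).subset ?_
  rintro x ⟨y, hy⟩
  rw [heval] at hy
  refine Set.mem_biUnion (x := y) ⟨2 * a * x + b, ?_⟩ ?_
  · rw [hg]
    simp only [eval_add, eval_mul, eval_C, eval_pow, eval_X]
    rw [hy]
    ring
  · show a * x ^ 2 + b * x + (c - y ^ m) = 0
    rw [hy]
    ring

/-- **Mordell's conjecture for the curves `y ^ m = f(x)`** of genus at least two, `f` separable: the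
genus is `((m - 1) (d - 1) + 1 - gcd(m, d)) / 2` for `d = deg f`. -/
theorem superelliptic (K : Type) [Field K] [NumberField K] {f : K[X]} (hf : f.Separable) {m : ℕ}
    (h : 3 + Nat.gcd m f.natDegree ≤ (m - 1) * (f.natDegree - 1)) :
    {z : Fin 2 → K | z 1 ^ m = f.eval (z 0)}.Finite := by
  classical
  set d := f.natDegree with hd
  have hm2 : 2 ≤ m := by
    by_contra hcon
    have : m - 1 = 0 := by omega
    rw [this, zero_mul] at h
    omega
  have hd2 : 2 ≤ d := by
    by_contra hcon
    have : d - 1 = 0 := by omega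
    rw [this, mul_zero] at h
    omega
  have hg : 1 ≤ Nat.gcd m d := Nat.gcd_pos_of_pos_left _ (by omega)
  have key : {x : K | ∃ y : K, y ^ m = f.eval x}.Finite := by
    rcases Nat.lt_or_ge d 3 with h3 | h3
    · have hd' : d = 2 := by omega
      rw [hd'] at h
      refine sup_two K hf ?_ hd'
      by_contra hcon
      have hm4 : m ≤ 4 := by omega
      interval_cases m <;> simp at h
    · refine sup_large K hf ?_
      rw [← hd]
      rcases Nat.lt_or_ge m 4 with h4 | h4
      · rcases Nat.lt_or_ge m 3 with h5 | h5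
        · have hm' : m = 2 := by omega
          subst hm'
          right; right
          refine ⟨le_rfl, ?_⟩
          by_contra hcon
          have hd4 : d ≤ 4 := by omega
          interval_cases d <;> simp at h
        · have hm' : m = 3 := by omega
          subst hm'
          right; left
          refine ⟨le_rfl, ?_⟩
          by_contra hcon
          have hd4 : d = 3 := by omega
          rw [hd4] at h
          simp at h
      · left
        exact ⟨h4, h3⟩
  have hy : ∀ x : K, {y : K | y ^ m = f.eval x}.Finite := by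
    intro x
    have hp : (X ^ m - C (f.eval x) : K[X]) ≠ 0 := X_pow_sub_C_ne_zero (by omega) _
    refine ((X ^ m - C (f.eval x) : K[X]).roots.toFinset.finite_toSet).subset ?_
    intro y hy
    rw [Finset.mem_coe, Multiset.mem_toFinset, mem_roots hp, IsRoot.def]
    simp only [eval_sub, eval_pow, eval_X, eval_C]
    rw [sub_eq_zero]
    exact hy
  refine (key.biUnion fun x _ => (hy x).image fun y => ![x, y]).subset ?_
  intro z hz
  refine Set.mem_biUnion (x := z 0) ⟨z 1, hz⟩ ⟨z 1, hz, ?_⟩
  funext i
  fin_cases i <;> rfl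

end Pool.Agent.H432.G2
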